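import Pool.Agent.Lib_MP_d22ea4_wd.W17

/-!
# A sub-Riemannian Laplacian whose microlocal Weyl measure gives no mass to `SΣ_{r-1}`

The sub-Riemannian structure lives on the torus `T^6 = (ℝ/ℤ)^6` with its Haar measure; the
distribution `D` has the orthonormal frame
`∂_0, ∂_1 + f(x_0) ∂_2, ∂_3, ∂_4 + g(x_0) ∂_5` with `f = (1 - cos 2πx_0)^4` and a polynomial `g` of
`1 - cos 2πx_0` (`SRTorus.g1`).  The orders of vanishing of `(f', g')` are `(7, 5)` at `x_0 = 0` and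
`(1, 9)` at `x_0 = 1/2`.  The general definitions are in `Pool/Agent/Lib_MP_d22ea4_an/Stmt.lean`,
the frame is in `Pool/Agent/Lib_MP_d22ea4_wd/Frame.lean`.
-/

open MeasureTheory SRTorus

namespace Pool.Agent.Results.MP_d22ea4_an.WeylDisjoint

/-- For the frame `X1` on the torus `T^6` one has `r = 11`, and `SΣ_{r-1} = SΣ_10` lies over
`x_0 = 1/2`.  The microlocal Weyl measure `W` exists and its support is the set of the directions
`± dx_2` over `x_0 = 0`.  Hence the support of `W` is disjoint from `SΣ_{r-1}` and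
`W (SΣ_{r-1}) = 0`. -/
theorem result :
    IsFrame pr X1 ∧ IsStep pr X1 11 ∧
      ∃ W : Measure (UnitAddTorus (Fin 6) × EuclideanSpace ℝ (Fin 6)), IsWeyl pr haar X1 W ∧
        W.support = {p | p.1 0 = 0 ∧ ‖p.2‖ = 1 ∧ ∀ i, i ≠ 2 → p.2 i = 0} ∧
        SSigma pr X1 10 = {p | p.1 0 = ((1 / 2 : ℝ) : UnitAddCircle) ∧ ‖p.2‖ = 1 ∧ p.2 0 = 0 ∧
          p.2 1 = 0 ∧ p.2 2 = 0 ∧ p.2 3 = 0 ∧ p.2 4 + 128 * p.2 5 = 0} ∧
        (SSigma pr X1 10).Nonempty ∧ Disjoint W.support (SSigma pr X1 10) ∧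
        W (SSigma pr X1 10) = 0 :=
  ⟨MP_d22ea4_an.WD.sIsFrame, MP_d22ea4_an.WD.sIsStep, MP_d22ea4_an.WD.WW1,
    MP_d22ea4_an.WD.sIsWeyl, MP_d22ea4_an.WD.support_WW1, MP_d22ea4_an.WD.sSSigma,
    MP_d22ea4_an.WD.sSSigma_nonempty, MP_d22ea4_an.WD.sDisj, MP_d22ea4_an.WD.WW1_null⟩

end Pool.Agent.Results.MP_d22ea4_an.WeylDisjoint
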