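import Pool.Agent.Lib_MP_d22ea4_an.Bridge

/-!
# A sub-Riemannian Laplacian whose microlocal Weyl measure has a support smaller than `SΣ_{r-1}`

The sub-Riemannian structure lives on the torus `T^6 = (ℝ/ℤ)^6` with its Haar measure; the
distribution `D` has the orthonormal frame
`∂_0, ∂_1 + (1 - cos 2πx_0)^3 ∂_2, ∂_3, ∂_4 + (1 - cos 2πx_3)^2 ∂_5`, the product of two structures
of steps `7` and `5`.  All definitions are in `Pool/Agent/Lib_MP_d22ea4_an/Stmt.lean`.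
-/

open MeasureTheory SRTorus

namespace Pool.Agent.Results.MP_d22ea4_an.WeylSupport

/-- For the frame `X0` on the torus `T^6` one has `r = 7`, the microlocal Weyl measure `W` exists,
its support is the set of the directions `± dx_2` over `x_0 = x_3 = 0`, whereas `SΣ_{r-1}` is the set
of the directions `± dx_2` over `x_0 = 0`.  Hence the support of `W` is not `SΣ_{r-1}`. -/
theorem result :
    IsFrame pr X0 ∧ IsStep pr X0 7 ∧
      ∃ W : Measure (UnitAddTorus (Fin 6) × EuclideanSpace ℝ (Fin 6)), IsWeyl pr haar X0 W ∧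
        W.support = {p | p.1 0 = 0 ∧ p.1 3 = 0 ∧ ‖p.2‖ = 1 ∧ ∀ i, i ≠ 2 → p.2 i = 0} ∧
        SSigma pr X0 6 = {p | p.1 0 = 0 ∧ ‖p.2‖ = 1 ∧ ∀ i, i ≠ 2 → p.2 i = 0} ∧
        W.support ≠ SSigma pr X0 6 :=
  ⟨MP_d22ea4_an.sIsFrame, MP_d22ea4_an.sIsStep, MP_d22ea4_an.WW, MP_d22ea4_an.sIsWeyl,
    MP_d22ea4_an.support_WW, MP_d22ea4_an.sSSigma, MP_d22ea4_an.sNe⟩

end Pool.Agent.Results.MP_d22ea4_an.WeylSupport
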